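import Pool.Agent.H300R2.NB.SetsU

/-!
Primes of the form `T_i(n) + c (a_i n^{j_i} + b_i)`, `n ∈ S`, with arbitrary functions `T_i` and
arbitrary sets `S`, for almost all `(a_i, b_i)`.
-/

set_option autoImplicit false

namespace Pool.Agent.Results.MP_3aaefc_nt.ArbitraryFunctions

open Finset
open Pool.Agent.H300R2.NB

/-- **Prime values along arbitrary functions and arbitrary sets.** For all `r, J, C, U` there is
`B` such that for every `E`, `x` large, `(log x)^B ≤ z ≤ (log x)^E`, `K ≥ (log x)^B`,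
`1 ≤ c ≤ (log x)^C`, `1 ≤ j_i ≤ J`, `A_i ≥ (log x)^B`, `A_i K^{j_i} (log x)^C ≥ x`,
`X_i (log x)^C ≥ x`, ANY integers `A0_i, B0_i`, ANY functions `T_i : ℕ → ℤ` and ANY set
`S ⊆ [1, K]`: for all `a_i ∈ (A0_i, A0_i + A_i]`, `b_i ∈ (B0_i, B0_i + X_i]` with at most
`∏ A_i X_i / (log x)^U` exceptions, the number of `n ∈ S`, `n ≤ y`, for which all the numbers
`T_i(n) + c (a_i n^{j_i} + b_i)` are primes `≤ x` is, for ALL `y`, equal to the value `model`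
predicted by the sieve up to an error of at most `K/(log x)^U`. For instance
`T_i(n) = p_n + 2 P_i(n)`, `c = 2`. -/
theorem result (r J C U : ℕ) : ∃ B : ℕ, ∀ E : ℕ, ∃ x0 : ℕ, ∀ x : ℕ, x0 ≤ x → ∀ z K c : ℕ,
    Real.log x ^ B ≤ z → (z : ℝ) ≤ Real.log x ^ E → Real.log x ^ B ≤ K →
    1 ≤ c → (c : ℝ) ≤ Real.log x ^ C →
    ∀ j A X : Fin r → ℕ, (∀ i, 1 ≤ j i ∧ j i ≤ J ∧ Real.log x ^ B ≤ A i ∧
      (x : ℝ) ≤ A i * (K : ℝ) ^ (j i) * Real.log x ^ C ∧ (x : ℝ) ≤ X i * Real.log x ^ C) →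
    ∀ (A0 B0 : Fin r → ℤ) (T : Fin r → ℕ → ℤ) (S : Finset ℕ), S ⊆ Icc 1 K →
    ∃ Ex : Finset (Fin r → ℤ × ℤ), (Ex.card : ℝ) ≤ (∏ i, ((A i : ℝ) * X i)) / Real.log x ^ U ∧
      ∀ p ∈ Bx A0 B0 A X, p ∉ Ex → ∀ y : ℕ,
        |cntP x (S.filter (fun n => n ≤ y)) (fam T c j p) -
          model x z (S.filter (fun n => n ≤ y)) (fam T c j p)| ≤ K / Real.log x ^ U :=
  setsU r J C U

end Pool.Agent.Results.MP_3aaefc_nt.ArbitraryFunctions
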