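import Pool.Agent.H307R2.PW.SH
import Pool.Agent.H307R2.PW.T1
import Pool.Agent.H307R2.PW.T5
import Pool.Agent.H276R2.PWT2
import Pool.Agent.H650R2.PW.T3

set_option autoImplicit false

/-! # Even shifts `2b` of a given function `T` with `T(n) + 2b` composite for all small `n`

For every function `T` from the naturals to the integers with `|T(n)| ≤ (n + 2) ^ A`, for instance
`T(n) = p_n + 2 P(n)` with an integer-valued polynomial `P`, and every interval `(M, M + X]` with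
`M ≥ X ≥ X₀(A)` there is an even `2b` in the interval such that `T(n) + 2b` is composite for all
`n ≤ c log X log log X`. -/

namespace Pool.Agent.Results.MP_3aaefc_nt.LateFirstPrime

open Pool.Agent.H307R2.PW

theorem result (A : ℕ) (hA : 1 ≤ A) :
    ∃ c : ℝ, 0 < c ∧ ∃ X₀ : ℝ, ∀ X : ℝ, X₀ ≤ X → ∀ M : ℕ, X ≤ M → ∀ T : ℕ → ℤ,
    (∀ n : ℕ, |T n| ≤ ((n : ℤ) + 2) ^ A) →
    ∃ b : ℕ, (M : ℝ) < 2 * b ∧ (2 * b : ℝ) ≤ M + X ∧
      ∀ n : ℕ, (n : ℝ) ≤ c * (Real.log X * Real.log (Real.log X)) →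
        ∃ p : ℕ, p.Prime ∧ (p : ℝ) ≤ X ^ (1 / 10 : ℝ) ∧ (p : ℤ) ∣ T n + 2 * b ∧
          (p : ℤ) < T n + 2 * b :=
  shift_final A hA (t5 _ (t1 _ (by omega))) t2 t3

end Pool.Agent.Results.MP_3aaefc_nt.LateFirstPrime
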