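import Mathlib
import Pool.Agent.H342R2.SP.F

namespace Pool.Agent.Results.MP_3aaefc_nt.ShiftProportion
open Finset Polynomial
open Pool.Agent.H342R2.SP

/-- the number of `n ≤ N` for which all the numbers `p_n + 2 (P_i(n) + b_i)` are primes -/
noncomputable def simul {k : ℕ} (P : Fin k → ℚ[X]) (b : Fin k → ℕ) (N : ℕ) : ℕ :=
  Set.ncard {n : ℕ | 1 ≤ n ∧ n ≤ N ∧ ∀ i, ∃ q : ℕ, q.Prime ∧
    (q : ℚ) = ((Nat.nth Nat.Prime (n - 1) : ℕ) : ℚ) + 2 * (P i + C (b i : ℚ)).eval (n : ℚ)}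

/-- the shifts `b ∈ [1, H]^k` for which there are at least `c N / (log H)^k` such `n ≤ N` -/
def good {k : ℕ} (P : Fin k → ℚ[X]) (c : ℝ) (N H : ℕ) : Set (Fin k → ℕ) :=
  {b | (∀ i, 1 ≤ b i ∧ b i ≤ H) ∧ c * (N / Real.log H ^ k) ≤ simul P b N}

lemma cnt_le_simul {k : ℕ} {P : Fin k → ℚ[X]} (hP : ∀ i, IntVal (P i)) {n₀ : ℕ}
    (hn : ∀ i, ∀ n : ℕ, n₀ ≤ n → 0 ≤ (P i).eval (n : ℚ)) {M N : ℕ} (hM : n₀ ≤ M) (hMN : 2 * M ≤ N) (b : Fin k → ℕ) :
    cnt (fun i n => Pool.Agent.H646.P n + 2 * FF (P i) n) b M ≤ simul P b N := by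
  have hinj : Function.Injective (fun n : ℕ => n + 1) := fun a b h => Nat.add_right_cancel h
  unfold cnt simul
  rw [← card_image_of_injective _ hinj, ← Set.ncard_coe_finset]
  apply Set.ncard_le_ncard
  · intro m hm
    rw [mem_coe, mem_image] at hm
    obtain ⟨n, hn1, rfl⟩ := hm
    rw [mem_filter, mem_Ico] at hn1
    refine ⟨by omega, by omega, fun i => ⟨Pool.Agent.H646.P n + 2 * FF (P i) n + 2 * b i, hn1.2 i, ?_⟩⟩
    have h1 := FF_cast (hP i) (hn i) (show n₀ ≤ n by omega)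
    have h2 : Pool.Agent.H646.P n = Nat.nth Nat.Prime n := rfl
    rw [h2, eval_add, eval_C]
    push_cast
    rw [h1]
    ring
  · apply Set.Finite.subset (Set.finite_Icc 1 N)
    intro n hn
    exact ⟨hn.1, hn.2.1⟩

theorem uniform (k d A : ℕ) (hk : 1 ≤ k) : ∃ c : ℝ, 0 < c ∧ ∀ n₀ : ℕ, ∃ N₀ : ℕ, ∀ N : ℕ, N₀ ≤ N →
    ∀ P : Fin k → ℚ[X], (∀ i, ∀ m : ℤ, ∃ z : ℤ, (P i).eval (m : ℚ) = (z : ℚ)) → (∀ i, (P i).natDegree ≤ d) →
    (∀ i, ∀ n : ℕ, n₀ ≤ n → 0 ≤ (P i).eval (n : ℚ) ∧ (P i).eval (n : ℚ) ≤ (P i).eval ((n : ℚ) + 1)) →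
    (∀ i, (P i).eval (N : ℚ) ≤ (N : ℚ) ^ A) →
    ∀ H : ℕ, (∀ i, ((Nat.nth Nat.Prime (N - 1) : ℕ) : ℚ) + 2 * (P i).eval (N : ℚ) ≤ (H : ℚ)) → Real.log H ^ k ≤ N →
      c * (H : ℝ) ^ k ≤ (good P c N H).ncard := by
  obtain ⟨c, hc, hcore0⟩ := core (k := k) hk d (A + 3) (by omega)
  obtain ⟨C₀, hC₀, hPle⟩ := Pool.Agent.H646.ChebM.P_le
  set C₁ : ℕ := ⌈C₀⌉₊ with hC₁
  refine ⟨c / 4, by positivity, fun n₀ => ?_⟩
  obtain ⟨N₁, hcore⟩ := hcore0 n₀
  refine ⟨4 * (N₁ + n₀ + (C₁ + 2) * 4 ^ (A + 2) + 4), fun N hN P hint hdeg hmono hA H hH hlog => ?_⟩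
  obtain ⟨M, hM1, hM2⟩ : ∃ M, 2 * M + 1 ≤ N ∧ N ≤ 2 * M + 2 := ⟨(N - 1) / 2, by omega, by omega⟩
  have hN1M : N₁ ≤ M := by omega
  have hn0M : n₀ ≤ M := by omega
  have hM4 : 4 ≤ M := by omega
  have hN4 : N ≤ 4 * M := by omega
  have hMC : (C₁ + 2) * 4 ^ (A + 2) ≤ M := by omega
  have hnn : ∀ i, ∀ n : ℕ, n₀ ≤ n → 0 ≤ (P i).eval (n : ℚ) := fun i n hn => (hmono i n hn).1
  have hFc : ∀ i, ((FF (P i) (2 * M) : ℕ) : ℚ) ≤ (P i).eval (N : ℚ) := by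
    intro i
    have h1 := FF_cast (hint i) (hnn i) (show n₀ ≤ 2 * M by omega)
    push_cast at h1
    rcases (show N = 2 * M + 1 ∨ N = 2 * M + 1 + 1 by omega) with h | h
    · rw [h1, h]; push_cast; exact le_rfl
    · have h2 := (hmono i (2 * M + 1) (by omega)).2
      rw [h1, h]
      push_cast at h2 ⊢
      exact h2
  have hgH : ∀ i, Pool.Agent.H646.P (2 * M) + 2 * FF (P i) (2 * M) ≤ H := by
    intro i
    have h1 : Pool.Agent.H646.P (2 * M) ≤ Nat.nth Nat.Prime (N - 1) :=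
      Pool.Agent.H646.ChebM.P_strictMono.monotone (show 2 * M ≤ N - 1 by omega)
    have h2 : ((Pool.Agent.H646.P (2 * M) : ℕ) : ℚ) ≤ ((Nat.nth Nat.Prime (N - 1) : ℕ) : ℚ) := by exact_mod_cast h1
    have h3 := hFc i
    have h4 := hH i
    have h5 : ((Pool.Agent.H646.P (2 * M) + 2 * FF (P i) (2 * M) : ℕ) : ℚ) ≤ (H : ℚ) := by
      push_cast
      linarith
    exact_mod_cast h5
  have hgA : ∀ i, Pool.Agent.H646.P (2 * M) + 2 * FF (P i) (2 * M) ≤ M ^ (A + 3) := by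
    intro i
    have h1 : Pool.Agent.H646.P (2 * M) ≤ C₁ * (4 * M) ^ 2 := by
      have e1 := hPle (2 * M) (by omega)
      have e2 : Real.log ((2 * M : ℕ) : ℝ) ≤ ((2 * M : ℕ) : ℝ) := (Real.log_le_sub_one_of_pos (by positivity)).trans (by linarith)
      have e3 : C₀ ≤ C₁ := Nat.le_ceil _
      have e4 : (Pool.Agent.H646.P (2 * M) : ℝ) ≤ ((C₁ * (4 * M) ^ 2 : ℕ) : ℝ) := by
        calc (Pool.Agent.H646.P (2 * M) : ℝ) ≤ C₀ * (((2 * M : ℕ) : ℝ) * Real.log ((2 * M : ℕ) : ℝ)) := e1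
          _ ≤ C₁ * (((2 * M : ℕ) : ℝ) * ((2 * M : ℕ) : ℝ)) := by
              apply mul_le_mul e3 _ _ (Nat.cast_nonneg _)
              · exact mul_le_mul_of_nonneg_left e2 (Nat.cast_nonneg _)
              · exact mul_nonneg (Nat.cast_nonneg _) (Real.log_natCast_nonneg _)
          _ ≤ _ := by
              push_cast
              apply mul_le_mul_of_nonneg_left _ (Nat.cast_nonneg _)
              nlinarith [sq_nonneg (M : ℝ)]
      exact_mod_cast e4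
    have h2 : FF (P i) (2 * M) ≤ (4 * M) ^ A := by
      have e1 : ((FF (P i) (2 * M) : ℕ) : ℚ) ≤ ((N ^ A : ℕ) : ℚ) := by
        push_cast
        exact (hFc i).trans (hA i)
      have e2 : FF (P i) (2 * M) ≤ N ^ A := by exact_mod_cast e1
      exact e2.trans (Nat.pow_le_pow_left hN4 A)
    calc Pool.Agent.H646.P (2 * M) + 2 * FF (P i) (2 * M) ≤ C₁ * (4 * M) ^ 2 + 2 * (4 * M) ^ A := by omega
      _ ≤ C₁ * (4 * M) ^ (A + 2) + 2 * (4 * M) ^ (A + 2) := by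
          apply Nat.add_le_add
          · exact Nat.mul_le_mul_left _ (Nat.pow_le_pow_right (by omega) (by omega))
          · exact Nat.mul_le_mul_left _ (Nat.pow_le_pow_right (by omega) (by omega))
      _ = ((C₁ + 2) * 4 ^ (A + 2)) * M ^ (A + 2) := by rw [mul_pow]; ring
      _ ≤ M * M ^ (A + 2) := Nat.mul_le_mul_right _ hMC
      _ = M ^ (A + 3) := by ring
  have hNr : (N : ℝ) ≤ 4 * M := by exact_mod_cast hN4
  have hmain := hcore (fun i => FF (P i)) (fun i => FF_per (hint i) (hdeg i) (hnn i))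
    (fun i n hn => FF_mono (fun n hn => (hmono i n hn).2) n hn) M hN1M hgA H hgH (hlog.trans hNr)
  have hL0 : 0 ≤ Real.log H := Real.log_natCast_nonneg _
  have h4 : c / 4 * (H : ℝ) ^ k ≤ c * (H : ℝ) ^ k := by
    apply mul_le_mul_of_nonneg_right (by linarith) (by positivity)
  refine h4.trans (hmain.trans ?_)
  apply Nat.cast_le.2
  rw [← Set.ncard_coe_finset]
  apply Set.ncard_le_ncard
  · intro b hb
    rw [mem_coe, mem_filter, Bx, Fintype.mem_piFinset] at hb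
    refine ⟨fun i => mem_Icc.1 (hb.1 i), ?_⟩
    have h5 : (cnt (fun i n => Pool.Agent.H646.P n + 2 * FF (P i) n) b M : ℝ) ≤ simul P b N := by
      exact_mod_cast cnt_le_simul hint hnn hn0M (by omega) b
    refine le_trans ?_ (hb.2.trans h5)
    have h6 : c / 4 * (N / Real.log H ^ k) ≤ c / 4 * (4 * M / Real.log H ^ k) := by
      apply mul_le_mul_of_nonneg_left _ (by positivity)
      exact div_le_div_of_nonneg_right hNr (by positivity)
    refine h6.trans (le_of_eq (by ring))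
  · apply Set.Finite.subset (Finset.finite_toSet (Bx k H))
    intro b hb
    rw [mem_coe, Bx, Fintype.mem_piFinset]
    exact fun i => mem_Icc.2 (hb.1 i)

/-- For all `k ≥ 1` and `d` there is `c > 0` such that for all integer-valued polynomials `P_1, ..., P_k` of
degree at most `d` with positive leading coefficients and all large `N`, at least `c H^k` of the shifts
`b ∈ [1, H]^k` have at least `c N / (log H)^k` integers `n ≤ N` with all `p_n + 2 (P_i(n) + b_i)` prime,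
for every `H` with `p_N + 2 P_i(N) ≤ H` and `(log H)^k ≤ N`. -/
theorem result (k d : ℕ) (hk : 1 ≤ k) : ∃ c : ℝ, 0 < c ∧
    ∀ P : Fin k → ℚ[X], (∀ i, ∀ m : ℤ, ∃ z : ℤ, (P i).eval (m : ℚ) = (z : ℚ)) → (∀ i, (P i).natDegree ≤ d) →
      (∀ i, 0 < (P i).leadingCoeff) → ∃ N₀ : ℕ, ∀ N : ℕ, N₀ ≤ N →
      ∀ H : ℕ, (∀ i, ((Nat.nth Nat.Prime (N - 1) : ℕ) : ℚ) + 2 * (P i).eval (N : ℚ) ≤ (H : ℚ)) → Real.log H ^ k ≤ N →
        c * (H : ℝ) ^ k ≤ (good P c N H).ncard := by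
  obtain ⟨c, hc, hu⟩ := uniform k d (d + 1) hk
  refine ⟨c, hc, fun P hint hdeg hlc => ?_⟩
  have h1 := fun i => ev_Q (P i) (hlc i)
  choose n₁ hn1 hn2 using h1
  set n₀ := univ.sup n₁ with hn₀
  have hle : ∀ i, n₁ i ≤ n₀ := fun i => le_sup (f := n₁) (mem_univ i)
  obtain ⟨N₀, h⟩ := hu n₀
  refine ⟨max N₀ (max n₀ 1), fun N hN H hH hlog => ?_⟩
  have hN0 : N₀ ≤ N := (le_max_left _ _).trans hN
  have hNn : n₀ ≤ N := (le_max_left _ _).trans ((le_max_right _ _).trans hN)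
  have hN1 : 1 ≤ N := (le_max_right _ _).trans ((le_max_right _ _).trans hN)
  refine h N hN0 P hint hdeg (fun i n hn => hn1 i n ((hle i).trans hn)) (fun i => ?_) H hH hlog
  refine (hn2 i N ((hle i).trans hNn)).trans ?_
  exact pow_le_pow_right₀ (by exact_mod_cast hN1) (Nat.add_le_add_right (hdeg i) 1)

end Pool.Agent.Results.MP_3aaefc_nt.ShiftProportion
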